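import Pool.Agent.Helper36.OWN.USMB
import Pool.Agent.Helper36.OWN.USMC

/-! A separable reflexive space with a unique spreading model which is not `ℓ_p` or `c₀`. -/

set_option autoImplicit false

open Filter Topology
open Pool.Agent.Helper36.OWN

universe u v

namespace Pool.Agent.Results.MP_4fad3e_an.UniqueSpreadingModel

theorem result :
    ∃ (X : Type) (_ : NormedAddCommGroup X) (_ : NormedSpace ℝ X),
      CompleteSpace X ∧ TopologicalSpace.SeparableSpace X ∧ ¬ FiniteDimensional ℝ X ∧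
      (∀ φ : (X →L[ℝ] ℝ) →L[ℝ] ℝ, ∃ x : X, ∀ f : X →L[ℝ] ℝ, φ f = f x) ∧
      (∃ (x : ℕ → X) (Y : Type) (_ : NormedAddCommGroup Y) (_ : NormedSpace ℝ Y) (y : ℕ → Y),
        CompleteSpace Y ∧ NormalizedWeaklyNull x ∧ IsBasic x ∧ Generates x y) ∧
      (∀ (Y : Type u) [NormedAddCommGroup Y] [NormedSpace ℝ Y] [CompleteSpace Y]
        (Z : Type v) [NormedAddCommGroup Z] [NormedSpace ℝ Z] [CompleteSpace Z]
        (x x' : ℕ → X) (y : ℕ → Y) (z : ℕ → Z), NormalizedWeaklyNull x →
        NormalizedWeaklyNull x' → Generates x y → Generates x' z → Equivalent y z) ∧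
      (∀ (Y : Type u) [NormedAddCommGroup Y] [NormedSpace ℝ Y] [CompleteSpace Y]
        (x : ℕ → X) (y : ℕ → Y), NormalizedWeaklyNull x → Generates x y →
        ∀ (p : ENNReal) [Fact (1 ≤ p)],
          ¬ Equivalent y (fun n => lp.single (E := fun _ : ℕ => ℝ) p n (1 : ℝ))) := by
  refine ⟨USM.XS, inferInstance, inferInstance, inferInstance, separable, infinite_dim,
    USM.reflexive, ⟨fun n => USM.e (n + 2), UniformSpace.Completion C00, inferInstance,
      inferInstance, ym, inferInstance, nwn_e, basic_e, generates_ym⟩, ?_, ?_⟩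
  · intro Y _ _ _ Z _ _ _ x x' y z hx hx' h h' a
    exact ⟨transfer hx hx' h h', transfer hx' hx h' h⟩
  · intro Y _ _ _ x y hx h p _
    exact not_equivalent_unit hx h p

end Pool.Agent.Results.MP_4fad3e_an.UniqueSpreadingModel
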